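import Pool.Agent.Z26.FC.Y40_WC_Conv

/-! Fine adjunction: all lattice directions instead of the facet directions. -/

set_option autoImplicit false

open Set Module

namespace Pool.Agent.Z26.FC.Fine

open Pool.Agent.Z26.FC.Results.MP_f2eb3d_co.WidthOne Pool.Agent.Z26.FC.Y40.WC

/-- The Fine adjoint body `K^{F(s)}`: the points at distance at least `s`, measured by every nonzero
integer functional, from the corresponding supporting hyperplane of `K`. -/
def fineAdjoint {n : ℕ} (K : Set (Fin n → ℝ)) (s : ℝ) : Set (Fin n → ℝ) :=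
  {x | ∀ (a : Fin n → ℤ) (b : ℝ), a ≠ 0 → IsLeast (lin a '' K) b → s ≤ lin a x - b}

/-- The Fine codegree: the inverse of the largest `s` with a nonempty Fine adjoint. -/
noncomputable def fineCodegree {n : ℕ} (K : Set (Fin n → ℝ)) : ℝ :=
  (sSup {s : ℝ | 0 < s ∧ (fineAdjoint K s).Nonempty})⁻¹

/-- `w` is the length of the image of `K` under some nonzero integer functional. -/
def IsRealLength {n : ℕ} (K : Set (Fin n → ℝ)) (w : ℝ) : Prop :=
  ∃ l : Fin n → ℤ, l ≠ 0 ∧ ∃ M m : ℝ, IsGreatest (lin l '' K) M ∧ IsLeast (lin l '' K) m ∧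
    M - m = w

/-- `w` is the lattice width of `K`. -/
def IsRealWidth {n : ℕ} (K : Set (Fin n → ℝ)) (w : ℝ) : Prop := IsLeast {r : ℝ | IsRealLength K r} w

theorem lin_neg {n : ℕ} (a : Fin n → ℤ) (x : Fin n → ℝ) : lin (-a) x = -lin a x := by
  simp [lin]

/-- **The point of Minkowski for lattice directions.** -/
theorem body_point {n : ℕ} {K : Set (Fin n → ℝ)} (hKc : Convex ℝ K) (hKk : IsCompact K)
    (hKne : K.Nonempty) {w : ℝ} (hw0 : 0 ≤ w) (h : ∀ r, IsRealLength K r → w ≤ r) :
    (K ∩ fineAdjoint K (w / (n + 1))).Nonempty := by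
  classical
  let ι := Option {p : (Fin n → ℤ) × ℝ // p.1 ≠ 0 ∧ IsLeast (lin p.1 '' K) p.2}
  let G : {p : (Fin n → ℤ) × ℝ // p.1 ≠ 0 ∧ IsLeast (lin p.1 '' K) p.2} → Set (Fin n → ℝ) :=
    fun p => K ∩ {x | w / ((n : ℝ) + 1) + p.1.2 ≤ lin p.1.1 x}
  rcases isEmpty_or_nonempty {p : (Fin n → ℤ) × ℝ // p.1 ≠ 0 ∧ IsLeast (lin p.1 '' K) p.2} with
    hemp | hnemp
  · obtain ⟨x, hx⟩ := hKne
    exact ⟨x, hx, fun a b ha hb => (hemp.false ⟨(a, b), ha, hb⟩).elim⟩
  have hmax : ∀ p : {p : (Fin n → ℤ) × ℝ // p.1 ≠ 0 ∧ IsLeast (lin p.1 '' K) p.2},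
      ∃ v ∈ K, w ≤ lin p.1.1 v - p.1.2 := by
    intro p
    obtain ⟨v, hv, hmv⟩ := hKk.exists_isMaxOn hKne (continuous_lin p.1.1).continuousOn
    refine ⟨v, hv, h _ ⟨p.1.1, p.2.1, lin p.1.1 v, p.1.2, ⟨⟨v, hv, rfl⟩, ?_⟩, p.2.2, rfl⟩⟩
    rintro _ ⟨x, hx, rfl⟩
    exact hmv hx
  choose v hvK hv using hmax
  have key := Convex.helly_theorem_compact' (𝕜 := ℝ) (F := G)
    (fun p => hKc.inter (convex_ge _ _))
    (fun p => hKk.inter_right (isClosed_le continuous_const (continuous_lin _)))
    (by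
      intro I hI
      rw [finrank_fintype_fun_eq_card, Fintype.card_fin] at hI
      rcases I.eq_empty_or_nonempty with rfl | hne
      · simp
      · have hc : (0 : ℝ) < I.card := by exact_mod_cast hne.card_pos
        have hc1 : ∑ p ∈ I, (I.card : ℝ)⁻¹ = 1 := by
          rw [Finset.sum_const, nsmul_eq_mul, mul_inv_cancel₀ hc.ne']
        refine ⟨∑ p ∈ I, ((I.card : ℝ)⁻¹) • v p, ?_⟩
        rw [Set.mem_iInter₂]
        intro q hq
        constructor
        · exact hKc.sum_mem (fun p _ => inv_nonneg.2 hc.le) hc1 fun p _ => hvK p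
        · show w / ((n : ℝ) + 1) + q.1.2 ≤ lin q.1.1 _
          have h1 : lin q.1.1 (∑ p ∈ I, ((I.card : ℝ)⁻¹) • v p) - q.1.2 =
              ∑ p ∈ I, (I.card : ℝ)⁻¹ * (lin q.1.1 (v p) - q.1.2) := by
            rw [lin_sum]
            have : (q.1.2 : ℝ) = ∑ p ∈ I, (I.card : ℝ)⁻¹ * q.1.2 := by
              rw [← Finset.sum_mul, hc1, one_mul]
            rw [this, ← Finset.sum_sub_distrib]
            refine Finset.sum_congr rfl fun p _ => ?_
            rw [lin_smul, ← this]
            ring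
          have h0 : ∀ p ∈ I, 0 ≤ (I.card : ℝ)⁻¹ * (lin q.1.1 (v p) - q.1.2) := by
            intro p _
            apply mul_nonneg (inv_nonneg.2 hc.le)
            exact sub_nonneg.2 (q.2.2.2 ⟨v p, hvK p, rfl⟩)
          have h2 := Finset.single_le_sum h0 hq
          have h3 : w / ((n : ℝ) + 1) ≤ (I.card : ℝ)⁻¹ * (lin q.1.1 (v q) - q.1.2) := by
            rw [div_eq_inv_mul]
            apply mul_le_mul _ (hv q) hw0 (inv_nonneg.2 hc.le)
            apply inv_anti₀ hc
            exact_mod_cast hI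
          linarith)
  obtain ⟨x, hx⟩ := key
  obtain ⟨p0⟩ := hnemp
  refine ⟨x, (Set.mem_iInter.1 hx p0).1, fun a b ha hab => ?_⟩
  have := (Set.mem_iInter.1 hx ⟨(a, b), ha, hab⟩).2
  have h2 : w / ((n : ℝ) + 1) + b ≤ lin a x := this
  linarith

/-- The Fine adjoint is empty beyond half of the length in any direction. -/
theorem half_bound {n : ℕ} {K : Set (Fin n → ℝ)} {r s : ℝ} (hr : IsRealLength K r)
    (hs : (fineAdjoint K s).Nonempty) : s ≤ r / 2 := by
  obtain ⟨l, hl, M, m, hM, hm, hMm⟩ := hr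
  obtain ⟨x, hx⟩ := hs
  have h1 := hx l m hl hm
  have h2 := hx (-l) (-M) (neg_ne_zero.2 hl) (by
    constructor
    · obtain ⟨y, hy, hyM⟩ := hM.1
      exact ⟨y, hy, by rw [lin_neg, hyM]⟩
    · rintro _ ⟨y, hy, rfl⟩
      rw [lin_neg]
      exact neg_le_neg (hM.2 ⟨y, hy, rfl⟩))
  rw [lin_neg] at h2
  linarith

/-- Two-sided bound of the Fine codegree by the lattice width. -/
theorem body_bounds {n : ℕ} {K : Set (Fin n → ℝ)} (hKc : Convex ℝ K) (hKk : IsCompact K)
    (hKne : K.Nonempty) {w : ℝ} (hw0 : 0 < w) (h : IsRealWidth K w) :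
    2 ≤ fineCodegree K * w ∧ fineCodegree K * w ≤ n + 1 := by
  have hn1 : (0 : ℝ) < (n : ℝ) + 1 := by positivity
  obtain ⟨x, -, hx⟩ := body_point hKc hKk hKne hw0.le (fun r hr => h.2 hr)
  have hmem : w / (n + 1) ∈ {s : ℝ | 0 < s ∧ (fineAdjoint K s).Nonempty} :=
    ⟨by positivity, x, hx⟩
  have hub : ∀ s ∈ {s : ℝ | 0 < s ∧ (fineAdjoint K s).Nonempty}, s ≤ w / 2 :=
    fun s hs => half_bound h.1 hs.2
  have hbdd : BddAbove {s : ℝ | 0 < s ∧ (fineAdjoint K s).Nonempty} := ⟨_, hub⟩
  have h1 := le_csSup hbdd hmem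
  have h2 := csSup_le ⟨_, hmem⟩ hub
  obtain ⟨t, ht⟩ : ∃ t, t = sSup {s : ℝ | 0 < s ∧ (fineAdjoint K s).Nonempty} := ⟨_, rfl⟩
  rw [← ht] at h1 h2
  have ht0 : 0 < t := lt_of_lt_of_le (by positivity) h1
  rw [fineCodegree, ← ht]
  constructor
  · rw [inv_mul_eq_div, le_div_iff₀ ht0]
    linarith
  · rw [inv_mul_eq_div, div_le_iff₀ ht0]
    rw [div_le_iff₀ hn1] at h1
    linarith

/-- The Helly dichotomy for an arbitrary family of integer inequalities valid on the polytope. -/
theorem dichotomyQ {n : ℕ} (hn : 1 ≤ n) {P V : Set (Fin n → ℝ)} (hVfin : V.Finite)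
    (hVint : ∀ v ∈ V, ∀ i, ∃ z : ℤ, v i = z) (hP : P = convexHull ℝ V) (k : ℕ) (hk : 1 ≤ k)
    (Q : (Fin n → ℤ) → ℤ → Prop) (hQ : ∀ a b, Q a b → ∀ x ∈ P, (b : ℝ) ≤ lin a x)
    (h : ∀ (a : Fin n → ℤ) (b : ℤ), Q a b → ∃ v ∈ V, (k : ℝ) ≤ lin a v - b) :
    (∃ s : ℝ, (k : ℝ) / (n + 1) < s ∧ ∃ x, ∀ a b, Q a b → s ≤ lin a x - b) ∨
    ∃ (a : Fin (n + 1) → Fin n → ℤ) (b : Fin (n + 1) → ℤ) (v : Fin (n + 1) → Fin n → ℝ),
      (∀ i, Q (a i) (b i)) ∧ (∀ i, v i ∈ V) ∧
      ∀ i j, lin (a i) (v j) - b i = if i = j then (k : ℝ) else 0 := by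
  classical
  have hn0 : (1 : ℝ) ≤ n := by exact_mod_cast hn
  have hk0 : (1 : ℝ) ≤ k := by exact_mod_cast hk
  have hn1 : (0 : ℝ) < (n : ℝ) + 1 := by positivity
  obtain ⟨δ, hδ⟩ : ∃ δ : ℝ, δ = 1 / (2 * n * (k + 1)) := ⟨_, rfl⟩
  have hδ0 : 0 < δ := by rw [hδ]; positivity
  have hδn : n * δ * (k + 1) = 1 / 2 := by
    rw [hδ]
    field_simp
  have hδ1 : n * δ ≤ 1 / 2 := by nlinarith
  let ι := {p : (Fin n → ℤ) × ℤ // Q p.1 p.2}
  obtain ⟨s, hs⟩ : ∃ s : ℝ, s = (1 + δ) * k / (n + 1) := ⟨_, rfl⟩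
  have hs1 : (k : ℝ) / (n + 1) < s := by
    rw [hs]
    apply div_lt_div_of_pos_right _ hn1
    nlinarith
  let F : ι → Set (Fin n → ℝ) := fun p => P ∩ {x | s + p.1.2 ≤ lin p.1.1 x}
  have hPc : Convex ℝ P := by rw [hP]; exact convex_convexHull ℝ _
  have hPk : IsCompact P := by rw [hP]; exact hVfin.isCompact_convexHull (𝕜 := ℝ)
  choose v hvV hv using fun p : ι => h p.1.1 p.1.2 p.2
  by_cases hI : ∀ I : Finset ι, I.card ≤ finrank ℝ (Fin n → ℝ) + 1 → (⋂ i ∈ I, F i).Nonempty
  · left
    have key := Convex.helly_theorem_compact' (𝕜 := ℝ) (F := F)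
      (fun p => hPc.inter (convex_ge _ _))
      (fun p => hPk.inter_right (isClosed_le continuous_const (continuous_lin _))) hI
    obtain ⟨x, hx⟩ := key
    refine ⟨s, hs1, x, fun a b hab => ?_⟩
    have := (Set.mem_iInter.1 hx ⟨(a, b), hab⟩).2
    have h2 : s + b ≤ lin a x := this
    linarith
  · right
    push Not at hI
    obtain ⟨I, hIc, hIe⟩ := hI
    rw [finrank_fintype_fun_eq_card, Fintype.card_fin] at hIc
    -- the distances are nonnegative integers
    have hD : ∀ q p : ι, ∃ d : ℕ, lin q.1.1 (v p) - q.1.2 = d := by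
      intro q p
      choose z hz using hVint (v p) (hvV p)
      have h1 : lin q.1.1 (v p) = ((∑ i, q.1.1 i * z i : ℤ) : ℝ) := by
        rw [lin]
        push_cast
        exact Finset.sum_congr rfl fun i _ => by rw [hz]
      have h2 : (q.1.2 : ℝ) ≤ lin q.1.1 (v p) :=
        hQ _ _ q.2 _ (by rw [hP]; exact subset_convexHull ℝ _ (hvV p))
      rw [h1] at h2 ⊢
      have h3 : q.1.2 ≤ ∑ i, q.1.1 i * z i := by exact_mod_cast h2
      refine ⟨(∑ i, q.1.1 i * z i - q.1.2).toNat, ?_⟩
      have h4 : (((∑ i, q.1.1 i * z i - q.1.2).toNat : ℤ)) = ∑ i, q.1.1 i * z i - q.1.2 :=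
        Int.toNat_of_nonneg (by omega)
      have h5 : (((∑ i, q.1.1 i * z i - q.1.2).toNat : ℤ) : ℝ) =
        ((∑ i, q.1.1 i * z i - q.1.2 : ℤ) : ℝ) := by rw [h4]
      rw [Int.cast_natCast] at h5
      rw [h5]
      push_cast
      ring
    choose D hD using hD
    have hDk : ∀ q : ι, k ≤ D q q := by
      intro q
      have h1 := hv q
      rw [hD] at h1
      exact_mod_cast h1
    -- no convex combination of the points works
    have hno : ∀ c : ι → ℝ, (∀ p ∈ I, 0 ≤ c p) → ∑ p ∈ I, c p = 1 →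
        (∀ q ∈ I, s ≤ ∑ p ∈ I, c p * D q p) → False := by
      intro c hc0 hc1 hcs
      have hmem : (∑ p ∈ I, c p • v p) ∈ ⋂ i ∈ I, F i := by
        rw [Set.mem_iInter₂]
        intro q hq
        constructor
        · apply hPc.sum_mem hc0 hc1
          intro p _
          rw [hP]
          exact subset_convexHull ℝ _ (hvV p)
        · show s + q.1.2 ≤ lin q.1.1 _
          have h1 := point_ok I q.1.1 q.1.2 v c hc1
          have h2 := hcs q hq
          have h3 : ∑ p ∈ I, c p * (lin q.1.1 (v p) - q.1.2) = ∑ p ∈ I, c p * D q p :=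
            Finset.sum_congr rfl fun p _ => by rw [hD]
          linarith
      rw [hIe] at hmem
      exact hmem
    have hne : I.Nonempty := by
      rcases I.eq_empty_or_nonempty with rfl | hne
      · simp at hIe
      · exact hne
    have hcard : I.card = n + 1 := by
      by_contra hcn
      have hle : I.card ≤ n := by omega
      have hc : (0 : ℝ) < I.card := by exact_mod_cast hne.card_pos
      refine hno (fun _ => (I.card : ℝ)⁻¹) (fun _ _ => (inv_pos.2 hc).le) ?_ ?_
      · rw [Finset.sum_const, nsmul_eq_mul, mul_inv_cancel₀ hc.ne']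
      · intro q hq
        have h1 : (I.card : ℝ)⁻¹ * D q q ≤ ∑ p ∈ I, (I.card : ℝ)⁻¹ * (D q p : ℝ) :=
          Finset.single_le_sum (f := fun p => (I.card : ℝ)⁻¹ * (D q p : ℝ))
            (fun p _ => by positivity) hq
        have h2 : (k : ℝ) ≤ D q q := by exact_mod_cast hDk q
        have h3 : (I.card : ℝ) ≤ n := by exact_mod_cast hle
        have h4 : (k : ℝ) / n ≤ (I.card : ℝ)⁻¹ * D q q := by
          rw [div_eq_inv_mul]
          apply mul_le_mul _ h2 (by positivity) (by positivity)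
          exact inv_anti₀ hc h3
        have h5 : s ≤ (k : ℝ) / n := by
          rw [hs, div_le_div_iff₀ hn1 (by positivity)]
          nlinarith
        linarith
    have htight : ∀ q ∈ I, ∀ p ∈ I, D q p = if q = p then k else 0 := by
      intro j hj
      by_contra hcon
      push Not at hcon
      obtain ⟨p0, hp0, hp0'⟩ := hcon
      -- the sum of the distances from the facet `j` is larger than `k`
      have hsum : k + 1 ≤ ∑ p ∈ I, D j p := by
        by_cases hjp : j = p0
        · rw [if_pos hjp] at hp0'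
          have h1 := Finset.single_le_sum (f := fun p => D j p) (fun p _ => Nat.zero_le _) hj
          have h2 := hDk j
          rw [← hjp] at hp0'
          omega
        · rw [if_neg hjp] at hp0'
          have h1 : D j j + D j p0 ≤ ∑ p ∈ I, D j p := by
            rw [← Finset.add_sum_erase _ _ hj]
            have h3 : p0 ∈ I.erase j := Finset.mem_erase.2 ⟨fun h => hjp h.symm, hp0⟩
            have := Finset.single_le_sum (f := fun p => D j p) (fun p _ => Nat.zero_le _) h3
            omega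
          have h2 := hDk j
          omega
      refine hno (fun p => if p = j then (1 - n * δ) / (n + 1) else (1 + δ) / (n + 1)) ?_ ?_ ?_
      · intro p _
        split_ifs
        · apply div_nonneg _ hn1.le
          linarith
        · positivity
      · rw [← Finset.add_sum_erase _ _ hj, if_pos rfl,
          Finset.sum_congr rfl (g := fun _ => (1 + δ) / ((n : ℝ) + 1))
            (fun p hp => if_neg (Finset.ne_of_mem_erase hp)),
          Finset.sum_const, Finset.card_erase_of_mem hj, hcard, nsmul_eq_mul]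
        simp only [Nat.add_sub_cancel]
        field_simp
        ring
      · intro q hq
        by_cases hqj : q = j
        · subst hqj
          have h1 : ∑ p ∈ I, (1 - n * δ) / (n + 1) * (D q p : ℝ) ≤
              ∑ p ∈ I, (if p = q then (1 - n * δ) / (n + 1) else (1 + δ) / (n + 1)) *
                (D q p : ℝ) := by
            apply Finset.sum_le_sum
            intro p _
            apply mul_le_mul_of_nonneg_right _ (by positivity)
            split_ifs
            · exact le_rfl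
            · apply div_le_div_of_nonneg_right _ hn1.le
              nlinarith
          rw [← Finset.mul_sum] at h1
          have h2 : ((k : ℝ) + 1) ≤ ∑ p ∈ I, (D q p : ℝ) := by exact_mod_cast hsum
          have h3 : (1 - n * δ) / (n + 1) * ((k : ℝ) + 1) ≤
              (1 - n * δ) / (n + 1) * ∑ p ∈ I, (D q p : ℝ) := by
            apply mul_le_mul_of_nonneg_left h2
            apply div_nonneg _ hn1.le
            linarith
          have h4 : s ≤ (1 - n * δ) / (n + 1) * ((k : ℝ) + 1) := by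
            rw [hs, div_mul_eq_mul_div]
            apply div_le_div_of_nonneg_right _ hn1.le
            have h5 : δ * k ≤ 1 / 2 := by nlinarith
            nlinarith
          exact h4.trans (h3.trans h1)
        · have h1 := Finset.single_le_sum
            (f := fun p => (if p = j then (1 - n * δ) / ((n : ℝ) + 1) else (1 + δ) / (n + 1)) *
                (D q p : ℝ)) (fun p _ => by
              apply mul_nonneg _ (by positivity)
              split_ifs
              · apply div_nonneg _ hn1.le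
                linarith
              · positivity) hq
          simp only [if_neg hqj] at h1
          have h2 : (k : ℝ) ≤ D q q := by exact_mod_cast hDk q
          have h3 : s ≤ (1 + δ) / (n + 1) * D q q := by
            rw [hs, mul_div_right_comm]
            exact mul_le_mul_of_nonneg_left h2 (by positivity)
          exact h3.trans h1
    -- the family
    let e := (I.equivFinOfCardEq hcard).symm
    refine ⟨fun i => (e i).1.1.1, fun i => (e i).1.1.2, fun i => v (e i).1, fun i => (e i).1.2,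
      fun i => hvV _, fun i j => ?_⟩
    have h1 := htight (e i).1 (e i).2 (e j).1 (e j).2
    rw [hD, h1]
    by_cases hij : i = j
    · subst hij
      simp
    · have h2 : ¬ ((e i).1 = (e j).1) := fun h => hij (e.injective (Subtype.ext h))
      rw [if_neg h2, if_neg hij]
      simp


end Pool.Agent.Z26.FC.Fine
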