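import Mathlib

/-!
# A lattice polytope of dimension `n` with `ℚ`-codegree larger than `(n+1)/2` has lattice width one

If every facet distance takes a value at least `2` at some lattice point of the polytope, then the
barycentre of at most `n + 1` of these points has distance at least `2/(n+1)` from the
corresponding facets, and Helly's theorem gives a point of the adjoint polytope `P^(2/(n+1))`.
-/

set_option autoImplicit false

open Set Module

namespace Pool.Agent.Z26.FC.Results.MP_f2eb3d_co.WidthOne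

/-- The linear functional `⟨a, ·⟩` on `ℝ^n` given by an integer vector `a`. -/
def lin {n : ℕ} (a : Fin n → ℤ) (x : Fin n → ℝ) : ℝ := ∑ i, (a i : ℝ) * x i

/-- `P` is an `n`-dimensional lattice polytope in `ℝ^n`: the convex hull of finitely many integer
points, with nonempty interior. -/
def IsLatticePolytope {n : ℕ} (P : Set (Fin n → ℝ)) : Prop :=
  (∃ V : Set (Fin n → ℝ), V.Finite ∧ (∀ v ∈ V, ∀ i, ∃ z : ℤ, v i = z) ∧ P = convexHull ℝ V) ∧
    (interior P).Nonempty

/-- `⟨a, x⟩ ≥ b`, with `a` a primitive integer vector and `b` an integer, is a facet inequality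
of `P`: it holds on `P`, and the points of `P` where equality holds form a nonempty set of
dimension `n - 1`. -/
def IsFacet {n : ℕ} (P : Set (Fin n → ℝ)) (a : Fin n → ℤ) (b : ℤ) : Prop :=
  (∀ k : ℤ, (∀ i, k ∣ a i) → IsUnit k) ∧ (∀ x ∈ P, (b : ℝ) ≤ lin a x) ∧
    {x | x ∈ P ∧ lin a x = b}.Nonempty ∧
    finrank ℝ (affineSpan ℝ {x | x ∈ P ∧ lin a x = b}).direction + 1 = n

/-- The adjoint polytope `P^(s)`: the points at lattice distance at least `s` from every facet. -/
def adjoint {n : ℕ} (P : Set (Fin n → ℝ)) (s : ℝ) : Set (Fin n → ℝ) :=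
  {x | ∀ (a : Fin n → ℤ) (b : ℤ), IsFacet P a b → s ≤ lin a x - b}

/-- The `ℚ`-codegree `μ(P)`. -/
noncomputable def qcodeg {n : ℕ} (P : Set (Fin n → ℝ)) : ℝ :=
  (sSup {s : ℝ | 0 < s ∧ (adjoint P s).Nonempty})⁻¹

/-- `P` has lattice width one: the maximum and the minimum over `P` of some nonzero integer
functional differ by `1`. -/
def HasWidthOne {n : ℕ} (P : Set (Fin n → ℝ)) : Prop :=
  ∃ l : Fin n → ℤ, l ≠ 0 ∧ ∃ M m : ℝ, IsGreatest (lin l '' P) M ∧ IsLeast (lin l '' P) m ∧
    M - m = 1

theorem lin_add {n : ℕ} (a : Fin n → ℤ) (x y : Fin n → ℝ) : lin a (x + y) = lin a x + lin a y := by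
  simp [lin, mul_add, Finset.sum_add_distrib]

theorem lin_smul {n : ℕ} (a : Fin n → ℤ) (c : ℝ) (x : Fin n → ℝ) :
    lin a (c • x) = c * lin a x := by
  simp only [lin, Pi.smul_apply, smul_eq_mul, Finset.mul_sum]
  exact Finset.sum_congr rfl fun i _ => by ring

theorem lin_sum {n : ℕ} {ι : Type} (a : Fin n → ℤ) (s : Finset ι) (f : ι → Fin n → ℝ) :
    lin a (∑ i ∈ s, f i) = ∑ i ∈ s, lin a (f i) := by
  classical
  induction s using Finset.induction_on with
  | empty => simp [lin]
  | insert i s hi ih => rw [Finset.sum_insert hi, Finset.sum_insert hi, lin_add, ih]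

theorem continuous_lin {n : ℕ} (a : Fin n → ℤ) : Continuous (lin a) := by
  unfold lin
  fun_prop

theorem convex_ge {n : ℕ} (a : Fin n → ℤ) (c : ℝ) : Convex ℝ {x | c ≤ lin a x} := by
  intro x hx y hy s t hs ht hst
  simp only [Set.mem_ofPred] at *
  rw [lin_add, lin_smul, lin_smul]
  have h1 := mul_le_mul_of_nonneg_left hx hs
  have h2 := mul_le_mul_of_nonneg_left hy ht
  have h3 : c = s * c + t * c := by rw [← add_mul, hst, one_mul]
  linarith

theorem convex_le {n : ℕ} (a : Fin n → ℤ) (c : ℝ) : Convex ℝ {x | lin a x ≤ c} := by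
  intro x hx y hy s t hs ht hst
  simp only [Set.mem_ofPred] at *
  rw [lin_add, lin_smul, lin_smul]
  have h1 := mul_le_mul_of_nonneg_left hx hs
  have h2 := mul_le_mul_of_nonneg_left hy ht
  have h3 : c = s * c + t * c := by rw [← add_mul, hst, one_mul]
  linarith

/-- If no facet distance is smaller than `2` on all the points of `V`, then `P^(2/(n+1))` is
nonempty. -/
theorem adjoint_nonempty {n : ℕ} {P V : Set (Fin n → ℝ)} (hVfin : V.Finite)
    (hP : P = convexHull ℝ V)
    (h : ∀ (a : Fin n → ℤ) (b : ℤ), IsFacet P a b → ∃ v ∈ V, 2 ≤ lin a v - b) :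
    (adjoint P (2 / (n + 1))).Nonempty := by
  classical
  let ι := {p : (Fin n → ℤ) × ℤ // IsFacet P p.1 p.2}
  let F : ι → Set (Fin n → ℝ) := fun p => P ∩ {x | 2 / ((n : ℝ) + 1) + p.1.2 ≤ lin p.1.1 x}
  have hPc : Convex ℝ P := by rw [hP]; exact convex_convexHull ℝ _
  have hPk : IsCompact P := by rw [hP]; exact hVfin.isCompact_convexHull (𝕜 := ℝ)
  choose v hvV hv using fun p : ι => h p.1.1 p.1.2 p.2
  have key := Convex.helly_theorem_compact' (𝕜 := ℝ) (F := F)
    (fun p => hPc.inter (convex_ge _ _))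
    (fun p => hPk.inter_right (isClosed_le continuous_const (continuous_lin _)))
    (by
      intro I hI
      rw [finrank_fintype_fun_eq_card, Fintype.card_fin] at hI
      rcases I.eq_empty_or_nonempty with rfl | hne
      · simp
      · have hc : (0 : ℝ) < I.card := by exact_mod_cast hne.card_pos
        refine ⟨∑ p ∈ I, ((I.card : ℝ)⁻¹) • v p, ?_⟩
        rw [Set.mem_iInter₂]
        intro q hq
        constructor
        · apply hPc.sum_mem
          · intro p _
            exact inv_nonneg.2 hc.le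
          · rw [Finset.sum_const, nsmul_eq_mul, mul_inv_cancel₀ hc.ne']
          · intro p _
            rw [hP]
            exact subset_convexHull ℝ _ (hvV p)
        · show 2 / ((n : ℝ) + 1) + q.1.2 ≤ lin q.1.1 _
          rw [lin_sum]
          have h1 : ∀ p ∈ I, (I.card : ℝ)⁻¹ * q.1.2 + (if p = q then (I.card : ℝ)⁻¹ * 2 else 0) ≤
              lin q.1.1 ((I.card : ℝ)⁻¹ • v p) := by
            intro p _
            rw [lin_smul]
            have h2 : (q.1.2 : ℝ) ≤ lin q.1.1 (v p) :=
              q.2.2.1 _ (by rw [hP]; exact subset_convexHull ℝ _ (hvV p))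
            have h3 := mul_le_mul_of_nonneg_left h2 (inv_nonneg.2 hc.le)
            split_ifs with hpq
            · have h4 := hv p
              rw [hpq] at h4
              have h5 := mul_le_mul_of_nonneg_left h4 (inv_nonneg.2 hc.le)
              rw [hpq]
              linarith
            · linarith
          have h2 := Finset.sum_le_sum h1
          rw [Finset.sum_add_distrib, Finset.sum_const, nsmul_eq_mul, ← mul_assoc,
            mul_inv_cancel₀ hc.ne', one_mul, Finset.sum_ite_eq' I q, if_pos hq] at h2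
          have h3 : 2 / ((n : ℝ) + 1) ≤ (I.card : ℝ)⁻¹ * 2 := by
            rw [div_eq_inv_mul]
            apply mul_le_mul_of_nonneg_right _ (by norm_num)
            apply inv_anti₀ hc
            exact_mod_cast hI
          linarith)
  obtain ⟨x, hx⟩ := key
  refine ⟨x, fun a b hab => ?_⟩
  have := (Set.mem_iInter.1 hx ⟨(a, b), hab⟩).2
  have h2 : 2 / ((n : ℝ) + 1) + b ≤ lin a x := this
  linarith

/-- **Positive answer to Q1, for all `n`.** Let `n ≥ 1` and let `P` be an `n`-dimensional lattice
polytope with `μ(P) > (n+1)/2`. Then `P` has lattice width one. -/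
theorem result (n : ℕ) (hn : 1 ≤ n) (P : Set (Fin n → ℝ)) (hP : IsLatticePolytope P)
    (hμ : ((n : ℝ) + 1) / 2 < qcodeg P) : HasWidthOne P := by
  obtain ⟨⟨V, hVfin, hVint, hPV⟩, hint⟩ := hP
  have hn1 : (0 : ℝ) < (n : ℝ) + 1 := by positivity
  have hex : ∃ (a : Fin n → ℤ) (b : ℤ), IsFacet P a b ∧ ∀ v ∈ V, lin a v - b < 2 := by
    by_contra hcon
    push Not at hcon
    have hne := adjoint_nonempty hVfin hPV hcon
    have hmem : 2 / ((n : ℝ) + 1) ∈ {s : ℝ | 0 < s ∧ (adjoint P s).Nonempty} :=
      ⟨by positivity, hne⟩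
    rw [qcodeg] at hμ
    by_cases hbdd : BddAbove {s : ℝ | 0 < s ∧ (adjoint P s).Nonempty}
    · have h1 := le_csSup hbdd hmem
      have h2 : (sSup {s : ℝ | 0 < s ∧ (adjoint P s).Nonempty})⁻¹ ≤ (2 / ((n : ℝ) + 1))⁻¹ :=
        inv_anti₀ (by positivity) h1
      rw [inv_div] at h2
      linarith
    · rw [Real.sSup_of_not_bddAbove hbdd, inv_zero] at hμ
      have : 0 < ((n : ℝ) + 1) / 2 := by positivity
      linarith
  obtain ⟨a, b, hfac, hlt⟩ := hex
  obtain ⟨hprim, hge, ⟨x0, hx0P, hx0⟩, -⟩ := hfac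
  have ha0 : a ≠ 0 := by
    rintro rfl
    have := hprim 2 (fun i => by simp)
    rw [Int.isUnit_iff] at this
    omega
  -- values of the facet functional on `V`
  have hval : ∀ v ∈ V, lin a v = b ∨ lin a v = b + 1 := by
    intro v hv
    choose z hz using hVint v hv
    have h1 : lin a v = ((∑ i, a i * z i : ℤ) : ℝ) := by
      rw [lin]
      push_cast
      exact Finset.sum_congr rfl fun i _ => by rw [hz]
    have h2 : (b : ℝ) ≤ lin a v := hge v (by rw [hPV]; exact subset_convexHull ℝ _ hv)
    have h3 := hlt v hv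
    rw [h1] at h2 h3 ⊢
    have h4 : b ≤ ∑ i, a i * z i := by exact_mod_cast h2
    have h5 : (∑ i, a i * z i) - b < 2 := by exact_mod_cast h3
    have h6 : ∑ i, a i * z i = b ∨ ∑ i, a i * z i = b + 1 := by omega
    rcases h6 with h6 | h6
    · left; exact_mod_cast h6
    · right; exact_mod_cast h6
  have hle : ∀ x ∈ P, lin a x ≤ b + 1 := by
    intro x hx
    rw [hPV] at hx
    exact convexHull_min (fun v hv => by
      rcases hval v hv with h | h
      · show lin a v ≤ b + 1
        linarith
      · exact h.le) (convex_le a _) hx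
  have hone : ∃ v ∈ V, lin a v = b + 1 := by
    by_contra hcon
    push Not at hcon
    have hall : ∀ x ∈ P, lin a x ≤ b := by
      intro x hx
      rw [hPV] at hx
      exact convexHull_min (fun v hv => by
        rcases hval v hv with h | h
        · exact h.le
        · exact absurd h (hcon v hv)) (convex_le a _) hx
    obtain ⟨x, hx⟩ := hint
    have hxi : ∃ i, a i ≠ 0 := by
      by_contra hc
      push Not at hc
      exact ha0 (funext hc)
    obtain ⟨i, hi⟩ := hxi
    -- move in the direction `a`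
    have hcont : Continuous fun t : ℝ => x + t • (fun j => (a j : ℝ)) := by fun_prop
    have hnear : ∀ᶠ t : ℝ in nhds 0, x + t • (fun j => (a j : ℝ)) ∈ P := by
      apply hcont.continuousAt.preimage_mem_nhds (t := P) (x := 0)
      rw [zero_smul, add_zero]
      exact mem_interior_iff_mem_nhds.1 hx
    obtain ⟨ε, hε, hball⟩ := Metric.eventually_nhds_iff.1 hnear
    have h1 := hball (y := ε / 2) (by
      rw [Real.dist_eq, sub_zero, abs_of_pos (by positivity)]
      linarith)
    have h2 := hall _ h1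
    rw [lin_add, lin_smul] at h2
    have h3 := hge x (interior_subset hx)
    have h4 : 0 < lin a (fun j => (a j : ℝ)) := by
      rw [lin]
      apply Finset.sum_pos' (fun j _ => mul_self_nonneg _)
      exact ⟨i, Finset.mem_univ _, mul_self_pos.2 (by exact_mod_cast hi)⟩
    nlinarith
  obtain ⟨v1, hv1, hv1'⟩ := hone
  refine ⟨a, ha0, b + 1, b, ⟨⟨v1, by rw [hPV]; exact subset_convexHull ℝ _ hv1, hv1'⟩, ?_⟩,
    ⟨⟨x0, hx0P, hx0⟩, ?_⟩, by ring⟩
  · rintro _ ⟨x, hx, rfl⟩
    exact hle x hx
  · rintro _ ⟨x, hx, rfl⟩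
    exact hge x hx

end Pool.Agent.Z26.FC.Results.MP_f2eb3d_co.WidthOne
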