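import Pool.Agent.Z26.FC.Results_MP_f2eb3d_co_WidthOne

/-! The Helly argument with all heights and the case of equality. -/

set_option autoImplicit false

open Set Module

namespace Pool.Agent.Z26.FC.Y40.WC

open Pool.Agent.Z26.FC.Results.MP_f2eb3d_co.WidthOne

/-- The value of a functional at a convex combination of vertices. -/
theorem point_ok {n : ℕ} {ι : Type}
    (I : Finset ι) (a : Fin n → ℤ) (b : ℤ) (v : ι → Fin n → ℝ) (c : ι → ℝ)
    (hc1 : ∑ p ∈ I, c p = 1) :
    lin a (∑ p ∈ I, c p • v p) - b = ∑ p ∈ I, c p * (lin a (v p) - b) := by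
  rw [lin_sum]
  have : (b : ℝ) = ∑ p ∈ I, c p * b := by rw [← Finset.sum_mul, hc1, one_mul]
  rw [this, ← Finset.sum_sub_distrib]
  refine Finset.sum_congr rfl fun p _ => ?_
  rw [lin_smul, ← this]
  ring

/-- If every facet distance is at least `k` at some point of `V`, then `P^(k/(n+1))` is
nonempty. -/
theorem adjoint_nonempty_of {n : ℕ} {P V : Set (Fin n → ℝ)} (hVfin : V.Finite)
    (hP : P = convexHull ℝ V) (k : ℕ)
    (h : ∀ (a : Fin n → ℤ) (b : ℤ), IsFacet P a b → ∃ v ∈ V, (k : ℝ) ≤ lin a v - b) :
    (adjoint P ((k : ℝ) / (n + 1))).Nonempty := by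
  classical
  let ι := {p : (Fin n → ℤ) × ℤ // IsFacet P p.1 p.2}
  let F : ι → Set (Fin n → ℝ) := fun p => P ∩ {x | (k : ℝ) / ((n : ℝ) + 1) + p.1.2 ≤ lin p.1.1 x}
  have hPc : Convex ℝ P := by rw [hP]; exact convex_convexHull ℝ _
  have hPk : IsCompact P := by rw [hP]; exact hVfin.isCompact_convexHull (𝕜 := ℝ)
  choose v hvV hv using fun p : ι => h p.1.1 p.1.2 p.2
  have key := Convex.helly_theorem_compact' (𝕜 := ℝ) (F := F)
    (fun p => hPc.inter (convex_ge _ _))
    (fun p => hPk.inter_right (isClosed_le continuous_const (continuous_lin _)))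
    (by
      intro I hI
      rw [finrank_fintype_fun_eq_card, Fintype.card_fin] at hI
      rcases I.eq_empty_or_nonempty with rfl | hne
      · simp
      · have hc : (0 : ℝ) < I.card := by exact_mod_cast hne.card_pos
        have hc1 : ∑ p ∈ I, (I.card : ℝ)⁻¹ = 1 := by
          rw [Finset.sum_const, nsmul_eq_mul, mul_inv_cancel₀ hc.ne']
        refine ⟨∑ p ∈ I, ((I.card : ℝ)⁻¹) • v p, ?_⟩
        rw [Set.mem_iInter₂]
        intro q hq
        constructor
        · apply hPc.sum_mem (fun p _ => inv_nonneg.2 hc.le) hc1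
          intro p _
          rw [hP]
          exact subset_convexHull ℝ _ (hvV p)
        · show (k : ℝ) / ((n : ℝ) + 1) + q.1.2 ≤ lin q.1.1 _
          have h1 := point_ok I q.1.1 q.1.2 v (fun _ => (I.card : ℝ)⁻¹) hc1
          have h0 : ∀ p ∈ I, 0 ≤ (I.card : ℝ)⁻¹ * (lin q.1.1 (v p) - q.1.2) := by
            intro p _
            apply mul_nonneg (inv_nonneg.2 hc.le)
            exact sub_nonneg.2 (q.2.2.1 _ (by rw [hP]; exact subset_convexHull ℝ _ (hvV p)))
          have h2 := Finset.single_le_sum h0 hq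
          have h3 : (k : ℝ) / ((n : ℝ) + 1) ≤ (I.card : ℝ)⁻¹ * (lin q.1.1 (v q) - q.1.2) := by
            rw [div_eq_inv_mul]
            apply mul_le_mul _ (hv q) (Nat.cast_nonneg _) (inv_nonneg.2 hc.le)
            apply inv_anti₀ hc
            exact_mod_cast hI
          linarith)
  obtain ⟨x, hx⟩ := key
  refine ⟨x, fun a b hab => ?_⟩
  have := (Set.mem_iInter.1 hx ⟨(a, b), hab⟩).2
  have h2 : (k : ℝ) / ((n : ℝ) + 1) + b ≤ lin a x := this
  linarith

theorem dichotomy {n : ℕ} (hn : 1 ≤ n) {P V : Set (Fin n → ℝ)} (hVfin : V.Finite)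
    (hVint : ∀ v ∈ V, ∀ i, ∃ z : ℤ, v i = z) (hP : P = convexHull ℝ V) (k : ℕ) (hk : 1 ≤ k)
    (h : ∀ (a : Fin n → ℤ) (b : ℤ), IsFacet P a b → ∃ v ∈ V, (k : ℝ) ≤ lin a v - b) :
    (∃ s : ℝ, (k : ℝ) / (n + 1) < s ∧ (adjoint P s).Nonempty) ∨
    ∃ (a : Fin (n + 1) → Fin n → ℤ) (b : Fin (n + 1) → ℤ) (v : Fin (n + 1) → Fin n → ℝ),
      (∀ i, IsFacet P (a i) (b i)) ∧ (∀ i, v i ∈ V) ∧
      ∀ i j, lin (a i) (v j) - b i = if i = j then (k : ℝ) else 0 := by
  classical
  have hn0 : (1 : ℝ) ≤ n := by exact_mod_cast hn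
  have hk0 : (1 : ℝ) ≤ k := by exact_mod_cast hk
  have hn1 : (0 : ℝ) < (n : ℝ) + 1 := by positivity
  obtain ⟨δ, hδ⟩ : ∃ δ : ℝ, δ = 1 / (2 * n * (k + 1)) := ⟨_, rfl⟩
  have hδ0 : 0 < δ := by rw [hδ]; positivity
  have hδn : n * δ * (k + 1) = 1 / 2 := by
    rw [hδ]
    field_simp
  have hδ1 : n * δ ≤ 1 / 2 := by nlinarith
  let ι := {p : (Fin n → ℤ) × ℤ // IsFacet P p.1 p.2}
  obtain ⟨s, hs⟩ : ∃ s : ℝ, s = (1 + δ) * k / (n + 1) := ⟨_, rfl⟩
  have hs1 : (k : ℝ) / (n + 1) < s := by
    rw [hs]
    apply div_lt_div_of_pos_right _ hn1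
    nlinarith
  let F : ι → Set (Fin n → ℝ) := fun p => P ∩ {x | s + p.1.2 ≤ lin p.1.1 x}
  have hPc : Convex ℝ P := by rw [hP]; exact convex_convexHull ℝ _
  have hPk : IsCompact P := by rw [hP]; exact hVfin.isCompact_convexHull (𝕜 := ℝ)
  choose v hvV hv using fun p : ι => h p.1.1 p.1.2 p.2
  by_cases hI : ∀ I : Finset ι, I.card ≤ finrank ℝ (Fin n → ℝ) + 1 → (⋂ i ∈ I, F i).Nonempty
  · left
    have key := Convex.helly_theorem_compact' (𝕜 := ℝ) (F := F)
      (fun p => hPc.inter (convex_ge _ _))
      (fun p => hPk.inter_right (isClosed_le continuous_const (continuous_lin _))) hI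
    obtain ⟨x, hx⟩ := key
    refine ⟨s, hs1, x, fun a b hab => ?_⟩
    have := (Set.mem_iInter.1 hx ⟨(a, b), hab⟩).2
    have h2 : s + b ≤ lin a x := this
    linarith
  · right
    push Not at hI
    obtain ⟨I, hIc, hIe⟩ := hI
    rw [finrank_fintype_fun_eq_card, Fintype.card_fin] at hIc
    -- the distances are nonnegative integers
    have hD : ∀ q p : ι, ∃ d : ℕ, lin q.1.1 (v p) - q.1.2 = d := by
      intro q p
      choose z hz using hVint (v p) (hvV p)
      have h1 : lin q.1.1 (v p) = ((∑ i, q.1.1 i * z i : ℤ) : ℝ) := by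
        rw [lin]
        push_cast
        exact Finset.sum_congr rfl fun i _ => by rw [hz]
      have h2 : (q.1.2 : ℝ) ≤ lin q.1.1 (v p) :=
        q.2.2.1 _ (by rw [hP]; exact subset_convexHull ℝ _ (hvV p))
      rw [h1] at h2 ⊢
      have h3 : q.1.2 ≤ ∑ i, q.1.1 i * z i := by exact_mod_cast h2
      refine ⟨(∑ i, q.1.1 i * z i - q.1.2).toNat, ?_⟩
      have h4 : (((∑ i, q.1.1 i * z i - q.1.2).toNat : ℤ)) = ∑ i, q.1.1 i * z i - q.1.2 :=
        Int.toNat_of_nonneg (by omega)
      have h5 : (((∑ i, q.1.1 i * z i - q.1.2).toNat : ℤ) : ℝ) =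
        ((∑ i, q.1.1 i * z i - q.1.2 : ℤ) : ℝ) := by rw [h4]
      rw [Int.cast_natCast] at h5
      rw [h5]
      push_cast
      ring
    choose D hD using hD
    have hDk : ∀ q : ι, k ≤ D q q := by
      intro q
      have h1 := hv q
      rw [hD] at h1
      exact_mod_cast h1
    -- no convex combination of the points works
    have hno : ∀ c : ι → ℝ, (∀ p ∈ I, 0 ≤ c p) → ∑ p ∈ I, c p = 1 →
        (∀ q ∈ I, s ≤ ∑ p ∈ I, c p * D q p) → False := by
      intro c hc0 hc1 hcs
      have hmem : (∑ p ∈ I, c p • v p) ∈ ⋂ i ∈ I, F i := by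
        rw [Set.mem_iInter₂]
        intro q hq
        constructor
        · apply hPc.sum_mem hc0 hc1
          intro p _
          rw [hP]
          exact subset_convexHull ℝ _ (hvV p)
        · show s + q.1.2 ≤ lin q.1.1 _
          have h1 := point_ok I q.1.1 q.1.2 v c hc1
          have h2 := hcs q hq
          have h3 : ∑ p ∈ I, c p * (lin q.1.1 (v p) - q.1.2) = ∑ p ∈ I, c p * D q p :=
            Finset.sum_congr rfl fun p _ => by rw [hD]
          linarith
      rw [hIe] at hmem
      exact hmem
    have hne : I.Nonempty := by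
      rcases I.eq_empty_or_nonempty with rfl | hne
      · simp at hIe
      · exact hne
    have hcard : I.card = n + 1 := by
      by_contra hcn
      have hle : I.card ≤ n := by omega
      have hc : (0 : ℝ) < I.card := by exact_mod_cast hne.card_pos
      refine hno (fun _ => (I.card : ℝ)⁻¹) (fun _ _ => (inv_pos.2 hc).le) ?_ ?_
      · rw [Finset.sum_const, nsmul_eq_mul, mul_inv_cancel₀ hc.ne']
      · intro q hq
        have h1 : (I.card : ℝ)⁻¹ * D q q ≤ ∑ p ∈ I, (I.card : ℝ)⁻¹ * (D q p : ℝ) :=
          Finset.single_le_sum (f := fun p => (I.card : ℝ)⁻¹ * (D q p : ℝ))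
            (fun p _ => by positivity) hq
        have h2 : (k : ℝ) ≤ D q q := by exact_mod_cast hDk q
        have h3 : (I.card : ℝ) ≤ n := by exact_mod_cast hle
        have h4 : (k : ℝ) / n ≤ (I.card : ℝ)⁻¹ * D q q := by
          rw [div_eq_inv_mul]
          apply mul_le_mul _ h2 (by positivity) (by positivity)
          exact inv_anti₀ hc h3
        have h5 : s ≤ (k : ℝ) / n := by
          rw [hs, div_le_div_iff₀ hn1 (by positivity)]
          nlinarith
        linarith
    have htight : ∀ q ∈ I, ∀ p ∈ I, D q p = if q = p then k else 0 := by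
      intro j hj
      by_contra hcon
      push Not at hcon
      obtain ⟨p0, hp0, hp0'⟩ := hcon
      -- the sum of the distances from the facet `j` is larger than `k`
      have hsum : k + 1 ≤ ∑ p ∈ I, D j p := by
        by_cases hjp : j = p0
        · rw [if_pos hjp] at hp0'
          have h1 := Finset.single_le_sum (f := fun p => D j p) (fun p _ => Nat.zero_le _) hj
          have h2 := hDk j
          rw [← hjp] at hp0'
          omega
        · rw [if_neg hjp] at hp0'
          have h1 : D j j + D j p0 ≤ ∑ p ∈ I, D j p := by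
            rw [← Finset.add_sum_erase _ _ hj]
            have h3 : p0 ∈ I.erase j := Finset.mem_erase.2 ⟨fun h => hjp h.symm, hp0⟩
            have := Finset.single_le_sum (f := fun p => D j p) (fun p _ => Nat.zero_le _) h3
            omega
          have h2 := hDk j
          omega
      refine hno (fun p => if p = j then (1 - n * δ) / (n + 1) else (1 + δ) / (n + 1)) ?_ ?_ ?_
      · intro p _
        split_ifs
        · apply div_nonneg _ hn1.le
          linarith
        · positivity
      · rw [← Finset.add_sum_erase _ _ hj, if_pos rfl,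
          Finset.sum_congr rfl (g := fun _ => (1 + δ) / ((n : ℝ) + 1))
            (fun p hp => if_neg (Finset.ne_of_mem_erase hp)),
          Finset.sum_const, Finset.card_erase_of_mem hj, hcard, nsmul_eq_mul]
        simp only [Nat.add_sub_cancel]
        field_simp
        ring
      · intro q hq
        by_cases hqj : q = j
        · subst hqj
          have h1 : ∑ p ∈ I, (1 - n * δ) / (n + 1) * (D q p : ℝ) ≤
              ∑ p ∈ I, (if p = q then (1 - n * δ) / (n + 1) else (1 + δ) / (n + 1)) *
                (D q p : ℝ) := by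
            apply Finset.sum_le_sum
            intro p _
            apply mul_le_mul_of_nonneg_right _ (by positivity)
            split_ifs
            · exact le_rfl
            · apply div_le_div_of_nonneg_right _ hn1.le
              nlinarith
          rw [← Finset.mul_sum] at h1
          have h2 : ((k : ℝ) + 1) ≤ ∑ p ∈ I, (D q p : ℝ) := by exact_mod_cast hsum
          have h3 : (1 - n * δ) / (n + 1) * ((k : ℝ) + 1) ≤
              (1 - n * δ) / (n + 1) * ∑ p ∈ I, (D q p : ℝ) := by
            apply mul_le_mul_of_nonneg_left h2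
            apply div_nonneg _ hn1.le
            linarith
          have h4 : s ≤ (1 - n * δ) / (n + 1) * ((k : ℝ) + 1) := by
            rw [hs, div_mul_eq_mul_div]
            apply div_le_div_of_nonneg_right _ hn1.le
            have h5 : δ * k ≤ 1 / 2 := by nlinarith
            nlinarith
          exact h4.trans (h3.trans h1)
        · have h1 := Finset.single_le_sum
            (f := fun p => (if p = j then (1 - n * δ) / ((n : ℝ) + 1) else (1 + δ) / (n + 1)) *
                (D q p : ℝ)) (fun p _ => by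
              apply mul_nonneg _ (by positivity)
              split_ifs
              · apply div_nonneg _ hn1.le
                linarith
              · positivity) hq
          simp only [if_neg hqj] at h1
          have h2 : (k : ℝ) ≤ D q q := by exact_mod_cast hDk q
          have h3 : s ≤ (1 + δ) / (n + 1) * D q q := by
            rw [hs, mul_div_right_comm]
            exact mul_le_mul_of_nonneg_left h2 (by positivity)
          exact h3.trans h1
    -- the family
    let e := (I.equivFinOfCardEq hcard).symm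
    refine ⟨fun i => (e i).1.1.1, fun i => (e i).1.1.2, fun i => v (e i).1, fun i => (e i).1.2,
      fun i => hvV _, fun i j => ?_⟩
    have h1 := htight (e i).1 (e i).2 (e j).1 (e j).2
    rw [hD, h1]
    by_cases hij : i = j
    · subst hij
      simp
    · have h2 : ¬ ((e i).1 = (e j).1) := fun h => hij (e.injective (Subtype.ext h))
      rw [if_neg h2, if_neg hij]
      simp

end Pool.Agent.Z26.FC.Y40.WC
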