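import Pool.Agent.Z26.FC.Y40_WC_Helly

/-! Lattice width, and the simplices all of whose heights are equal. -/

set_option autoImplicit false

open Set Module

namespace Pool.Agent.Z26.FC.Y40.WC

open Pool.Agent.Z26.FC.Results.MP_f2eb3d_co.WidthOne

/-- `K` is the length of the image of `P` under some nonzero integer functional. -/
def IsLength {n : ℕ} (P : Set (Fin n → ℝ)) (K : ℕ) : Prop :=
  ∃ l : Fin n → ℤ, l ≠ 0 ∧ ∃ M m : ℝ, IsGreatest (lin l '' P) M ∧ IsLeast (lin l '' P) m ∧
    M - m = K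

/-- `w` is the lattice width of `P`: the least length of an image of `P` under a nonzero integer
functional. -/
def IsWidth {n : ℕ} (P : Set (Fin n → ℝ)) (w : ℕ) : Prop := IsLeast {K : ℕ | IsLength P K} w

/-- `P` is lattice equivalent to the simplex `k Δ_n`: it is the image of
`{x | x_j ≥ 0, ∑ x_j ≤ k}` under `x ↦ A x + t` with an integer matrix `A` of determinant `1` or
`-1` and an integer vector `t`. -/
def IsDilatedSimplex {n : ℕ} (P : Set (Fin n → ℝ)) (k : ℕ) : Prop :=
  ∃ (A : Matrix (Fin n) (Fin n) ℤ) (t : Fin n → ℤ), IsUnit A.det ∧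
    P = (fun (x : Fin n → ℝ) (i : Fin n) => (∑ j, (A i j : ℝ) * x j) + t i) ''
      {x | (∀ j, 0 ≤ x j) ∧ ∑ j, x j ≤ k}

theorem length_of {n : ℕ} {P V : Set (Fin n → ℝ)} (hVfin : V.Finite) (hVne : V.Nonempty)
    (hVint : ∀ v ∈ V, ∀ i, ∃ z : ℤ, v i = z) (hP : P = convexHull ℝ V) (l : Fin n → ℤ)
    (hl : l ≠ 0) :
    ∃ K : ℕ, IsLength P K ∧ ∃ v1 ∈ V, ∃ v2 ∈ V, lin l v1 - lin l v2 = K ∧
      ∀ x ∈ P, lin l v2 ≤ lin l x ∧ lin l x ≤ lin l v1 := by
  obtain ⟨v1, hv1, h1⟩ := Set.exists_max_image V (lin l) hVfin hVne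
  obtain ⟨v2, hv2, h2⟩ := Set.exists_min_image V (lin l) hVfin hVne
  have hb : ∀ x ∈ P, lin l v2 ≤ lin l x ∧ lin l x ≤ lin l v1 := by
    intro x hx
    rw [hP] at hx
    exact ⟨convexHull_min (fun v hv => h2 v hv) (convex_ge l _) hx,
      convexHull_min (fun v hv => h1 v hv) (convex_le l _) hx⟩
  have hint : ∀ v ∈ V, ∃ d : ℤ, lin l v = d := by
    intro v hv
    choose z hz using hVint v hv
    refine ⟨∑ i, l i * z i, ?_⟩
    rw [lin]
    push_cast
    exact Finset.sum_congr rfl fun i _ => by rw [hz]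
  obtain ⟨d1, hd1⟩ := hint v1 hv1
  obtain ⟨d2, hd2⟩ := hint v2 hv2
  have hVP : ∀ v ∈ V, v ∈ P := fun v hv => by rw [hP]; exact subset_convexHull ℝ _ hv
  have hle : d2 ≤ d1 := by
    have := h1 v2 hv2
    rw [hd1, hd2] at this
    exact_mod_cast this
  have hK : lin l v1 - lin l v2 = ((d1 - d2).toNat : ℕ) := by
    have h4 : (((d1 - d2).toNat : ℤ)) = d1 - d2 := Int.toNat_of_nonneg (by omega)
    have h5 : (((d1 - d2).toNat : ℤ) : ℝ) = ((d1 - d2 : ℤ) : ℝ) := by rw [h4]
    rw [Int.cast_natCast] at h5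
    rw [h5, hd1, hd2]
    push_cast
    ring
  refine ⟨(d1 - d2).toNat, ⟨l, hl, lin l v1, lin l v2, ⟨⟨v1, hVP v1 hv1, rfl⟩, ?_⟩,
    ⟨⟨v2, hVP v2 hv2, rfl⟩, ?_⟩, hK⟩, v1, hv1, v2, hv2, hK, hb⟩
  · rintro _ ⟨x, hx, rfl⟩
    exact (hb x hx).2
  · rintro _ ⟨x, hx, rfl⟩
    exact (hb x hx).1

theorem facet_ne_zero {n : ℕ} {P : Set (Fin n → ℝ)} {a : Fin n → ℤ} {b : ℤ}
    (h : IsFacet P a b) : a ≠ 0 := by
  rintro rfl
  have := h.1 2 (fun i => by simp)
  rw [Int.isUnit_iff] at this
  omega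

/-- The height of the polytope over each facet is at least the lattice width. -/
theorem facet_height {n : ℕ} {P V : Set (Fin n → ℝ)} (hVfin : V.Finite) (hVne : V.Nonempty)
    (hVint : ∀ v ∈ V, ∀ i, ∃ z : ℤ, v i = z) (hP : P = convexHull ℝ V) (w : ℕ)
    (hw : ∀ K, IsLength P K → w ≤ K) (a : Fin n → ℤ) (b : ℤ) (h : IsFacet P a b) :
    ∃ v ∈ V, (w : ℝ) ≤ lin a v - b := by
  obtain ⟨K, hK, v1, hv1, v2, hv2, h12, hb⟩ := length_of hVfin hVne hVint hP a (facet_ne_zero h)
  obtain ⟨-, hge, ⟨x0, hx0P, hx0⟩, -⟩ := h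
  refine ⟨v1, hv1, ?_⟩
  have h1 := (hb x0 hx0P).1
  have h2 := hge v2 (by rw [hP]; exact subset_convexHull ℝ _ hv2)
  have h3 : (w : ℝ) ≤ K := by exact_mod_cast hw K hK
  rw [hx0] at h1
  linarith

/-- The width is positive for polytopes with interior points. -/
theorem length_pos {n : ℕ} {P : Set (Fin n → ℝ)} (hint : (interior P).Nonempty) {K : ℕ}
    (hK : IsLength P K) : 1 ≤ K := by
  by_contra hcon
  obtain rfl : K = 0 := by omega
  obtain ⟨l, hl, M, m, hM, hm, hMm⟩ := hK
  obtain ⟨x, hx⟩ := hint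
  have hxi : ∃ i, l i ≠ 0 := by
    by_contra hc
    push Not at hc
    exact hl (funext hc)
  obtain ⟨i, hi⟩ := hxi
  have hcont : Continuous fun t : ℝ => x + t • (fun j => (l j : ℝ)) := by fun_prop
  have hnear : ∀ᶠ t : ℝ in nhds 0, x + t • (fun j => (l j : ℝ)) ∈ P := by
    apply hcont.continuousAt.preimage_mem_nhds (t := P) (x := 0)
    rw [zero_smul, add_zero]
    exact mem_interior_iff_mem_nhds.1 hx
  obtain ⟨ε, hε, hball⟩ := Metric.eventually_nhds_iff.1 hnear
  have h1 := hball (y := ε / 2) (by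
    rw [Real.dist_eq, sub_zero, abs_of_pos (by positivity)]
    linarith)
  have h2 : lin l (x + (ε / 2) • (fun j => (l j : ℝ))) ≤ M := hM.2 ⟨_, h1, rfl⟩
  rw [lin_add, lin_smul] at h2
  have h3 : m ≤ lin l x := hm.2 ⟨_, interior_subset hx, rfl⟩
  have h4 : 0 < lin l (fun j => (l j : ℝ)) := by
    rw [lin]
    apply Finset.sum_pos' (fun j _ => mul_self_nonneg _)
    exact ⟨i, Finset.mem_univ _, mul_self_pos.2 (by exact_mod_cast hi)⟩
  have h5 : 0 < ε / 2 * lin l (fun j => (l j : ℝ)) := by positivity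
  simp only [Nat.cast_zero] at hMm
  linarith

section Simplex

variable {n : ℕ} {P V : Set (Fin n → ℝ)} {k : ℕ} {a : Fin (n + 1) → Fin n → ℤ}
  {b : Fin (n + 1) → ℤ} {v : Fin (n + 1) → Fin n → ℝ} {z : Fin (n + 1) → Fin n → ℤ}

theorem mul_AU (hz : ∀ j c, v j c = z j c)
    (hd : ∀ i j, lin (a i) (v j) - b i = if i = j then (k : ℝ) else 0) :
    (Matrix.of fun (i c : Fin n) => a i.succ c) *
      (Matrix.of fun (c j : Fin n) => z j.succ c - z 0 c) = (k : ℤ) • (1 : Matrix _ _ ℤ) := by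
  ext i j
  rw [Matrix.mul_apply]
  simp only [Matrix.of_apply, Matrix.smul_apply, Matrix.one_apply]
  have h1 : ((∑ c, a i.succ c * (z j.succ c - z 0 c) : ℤ) : ℝ) =
      lin (a i.succ) (v j.succ) - lin (a i.succ) (v 0) := by
    simp only [lin]
    rw [← Finset.sum_sub_distrib]
    push_cast
    refine Finset.sum_congr rfl fun c _ => ?_
    rw [hz, hz]
    ring
  have h2 := hd i.succ j.succ
  have h3 := hd i.succ 0
  rw [if_neg (Fin.succ_ne_zero i)] at h3
  have h4 : ((∑ c, a i.succ c * (z j.succ c - z 0 c) : ℤ) : ℝ) =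
      if i.succ = j.succ then (k : ℝ) else 0 := by
    rw [h1, ← h2]
    linarith
  by_cases hij : i = j
  · subst hij
    rw [if_pos rfl] at h4
    rw [if_pos rfl, smul_eq_mul, mul_one]
    exact_mod_cast h4
  · rw [if_neg (fun h => hij (Fin.succ_injective _ h))] at h4
    rw [if_neg hij, smul_zero]
    exact_mod_cast h4

theorem mul_UA (hk : 1 ≤ k) {A U : Matrix (Fin n) (Fin n) ℤ} (h : A * U = (k : ℤ) • 1) :
    A.det ≠ 0 ∧ A.det ∣ (k : ℤ) ^ n ∧ U * A = (k : ℤ) • 1 := by
  have h1 : A.det * U.det = (k : ℤ) ^ n := by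
    rw [← Matrix.det_mul, h, Matrix.det_smul, Matrix.det_one, mul_one, Fintype.card_fin]
  have hA : A.det ≠ 0 := by
    intro h0
    rw [h0, zero_mul] at h1
    have : (k : ℤ) ^ n ≠ 0 := pow_ne_zero _ (by exact_mod_cast (by omega : k ≠ 0))
    exact this h1.symm
  refine ⟨hA, ⟨_, h1.symm⟩, ?_⟩
  have h2 : A * (U * A - (k : ℤ) • 1) = 0 := by
    rw [mul_sub, ← mul_assoc, h, Matrix.smul_mul, one_mul, Matrix.mul_smul, mul_one, sub_self]
  have h3 : A.adjugate * (A * (U * A - (k : ℤ) • 1)) = 0 := by rw [h2, mul_zero]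
  rw [← mul_assoc, Matrix.adjugate_mul, Matrix.smul_mul, one_mul] at h3
  have h4 : U * A - (k : ℤ) • 1 = 0 := by
    ext i j
    have h5 := congrFun (congrFun h3 i) j
    rw [Matrix.smul_apply, smul_eq_mul] at h5
    exact (mul_eq_zero.1 h5).resolve_left hA
  exact sub_eq_zero.1 h4

/-- Coordinates of a point in terms of the distances from `n` of the facets. -/
theorem coord (hz : ∀ j c, v j c = z j c) (hk : 1 ≤ k)
    (hd : ∀ i j, lin (a i) (v j) - b i = if i = j then (k : ℝ) else 0) (x : Fin n → ℝ)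
    (c : Fin n) :
    (k : ℝ) * (x c - v 0 c) =
      ∑ j : Fin n, ((z j.succ c - z 0 c : ℤ) : ℝ) * (lin (a j.succ) x - b j.succ) := by
  have hUA := (mul_UA hk (mul_AU hz hd)).2.2
  have h0 : ∀ j : Fin n, (b j.succ : ℝ) = lin (a j.succ) (v 0) := by
    intro j
    have h3 := hd j.succ 0
    rw [if_neg (Fin.succ_ne_zero j)] at h3
    linarith
  have h1 : ∀ j : Fin n, lin (a j.succ) x - b j.succ =
      ∑ e, (a j.succ e : ℝ) * (x e - v 0 e) := by
    intro j
    rw [h0, lin, lin, ← Finset.sum_sub_distrib]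
    exact Finset.sum_congr rfl fun e _ => by ring
  simp only [h1, Finset.mul_sum]
  rw [Finset.sum_comm]
  have h2 : ∀ e : Fin n, ∑ j : Fin n, ((z j.succ c - z 0 c : ℤ) : ℝ) *
      ((a j.succ e : ℝ) * (x e - v 0 e)) = (if c = e then (k : ℝ) else 0) * (x e - v 0 e) := by
    intro e
    have h3 := congrFun (congrFun hUA c) e
    rw [Matrix.mul_apply] at h3
    simp only [Matrix.of_apply, Matrix.smul_apply, Matrix.one_apply] at h3
    have h4 : ((∑ j : Fin n, (z j.succ c - z 0 c) * a j.succ e : ℤ) : ℝ) =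
        if c = e then (k : ℝ) else 0 := by
      rw [h3]
      split_ifs <;> simp
    rw [← h4]
    push_cast
    rw [Finset.sum_mul]
    exact Finset.sum_congr rfl fun j _ => by ring
  rw [Finset.sum_congr rfl fun e _ => h2 e]
  simp

theorem coord_zero (hz : ∀ j c, v j c = z j c) (hk : 1 ≤ k)
    (hd : ∀ i j, lin (a i) (v j) - b i = if i = j then (k : ℝ) else 0) (x : Fin n → ℝ) :
    lin (a 0) x - b 0 = k - ∑ j : Fin n, (lin (a j.succ) x - b j.succ) := by
  have hk0 : (k : ℝ) ≠ 0 := by exact_mod_cast (by omega : k ≠ 0)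
  have h00 := hd 0 0
  rw [if_pos rfl] at h00
  have h1 : (k : ℝ) * (lin (a 0) x - lin (a 0) (v 0)) =
      ∑ j : Fin n, (lin (a j.succ) x - b j.succ) * (lin (a 0) (v j.succ) - lin (a 0) (v 0)) := by
    have h2 : (k : ℝ) * (lin (a 0) x - lin (a 0) (v 0)) =
        ∑ c, (a 0 c : ℝ) * (k * (x c - v 0 c)) := by
      rw [lin, lin, ← Finset.sum_sub_distrib, Finset.mul_sum]
      exact Finset.sum_congr rfl fun c _ => by ring
    rw [h2]
    simp only [coord hz hk hd x]
    simp only [Finset.mul_sum]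
    rw [Finset.sum_comm]
    refine Finset.sum_congr rfl fun j _ => ?_
    simp only [lin]
    rw [← Finset.sum_sub_distrib]
    rw [Finset.mul_sum]
    refine Finset.sum_congr rfl fun c _ => ?_
    rw [hz, hz]
    push_cast
    ring
  have h3 : ∀ j : Fin n, lin (a 0) (v j.succ) - lin (a 0) (v 0) = -k := by
    intro j
    have h4 := hd 0 j.succ
    rw [if_neg (Fin.succ_ne_zero j).symm] at h4
    linarith
  simp only [h3] at h1
  rw [← Finset.sum_mul] at h1
  have h5 : lin (a 0) x - lin (a 0) (v 0) = -∑ j : Fin n, (lin (a j.succ) x - b j.succ) := by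
    apply mul_left_cancel₀ hk0
    rw [h1]
    ring
  linarith

end Simplex

theorem simplex_case {n : ℕ} {P V : Set (Fin n → ℝ)} (hVfin : V.Finite)
    (hVint : ∀ v ∈ V, ∀ i, ∃ z : ℤ, v i = z) (hP : P = convexHull ℝ V) (k : ℕ) (hk : 1 ≤ k)
    (a : Fin (n + 1) → Fin n → ℤ) (b : Fin (n + 1) → ℤ) (v : Fin (n + 1) → Fin n → ℝ)
    (hf : ∀ i, ∀ x ∈ P, (b i : ℝ) ≤ lin (a i) x) (hv : ∀ i, v i ∈ V)
    (hd : ∀ i j, lin (a i) (v j) - b i = if i = j then (k : ℝ) else 0) :
    IsDilatedSimplex P k ∨ ∃ K, K < k ∧ IsLength P K := by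
  classical
  have : NeZero k := ⟨by omega⟩
  have hk0 : (0 : ℝ) < k := by exact_mod_cast hk
  have hz' : ∀ j c, ∃ y : ℤ, v j c = y := fun j c => hVint _ (hv j) c
  choose z hz using hz'
  set A : Matrix (Fin n) (Fin n) ℤ := Matrix.of fun (i c : Fin n) => a i.succ c with hA
  set U : Matrix (Fin n) (Fin n) ℤ := Matrix.of fun (c j : Fin n) => z j.succ c - z 0 c with hU
  have hAU : A * U = (k : ℤ) • 1 := mul_AU hz hd
  obtain ⟨hdet, hdvd, hUA⟩ := mul_UA hk hAU
  have hb0 : ∀ j : Fin n, (b j.succ : ℝ) = lin (a j.succ) (v 0) := by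
    intro j
    have h3 := hd j.succ 0
    rw [if_neg (Fin.succ_ne_zero j)] at h3
    linarith
  have hdP : ∀ x ∈ P, (∀ j : Fin n, 0 ≤ lin (a j.succ) x - b j.succ) ∧
      ∑ j : Fin n, (lin (a j.succ) x - b j.succ) ≤ k := by
    intro x hx
    refine ⟨fun j => sub_nonneg.2 (hf _ x hx), ?_⟩
    have h1 := coord_zero hz hk hd x
    have h2 := hf 0 x hx
    linarith
  by_cases hinj : ∀ m : Fin n → ZMod k,
      Matrix.vecMul m (A.map (Int.castRingHom (ZMod k))) = 0 → m = 0
  · left
    have hdetu : IsUnit A.det := by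
      have hi : Function.Injective
          (fun m : Fin n → ZMod k => Matrix.vecMul m (A.map (Int.castRingHom (ZMod k)))) := by
        intro m m' hmm
        have h1 := hinj (m - m') (by rw [Matrix.sub_vecMul]; exact sub_eq_zero.2 hmm)
        exact sub_eq_zero.1 h1
      have hs := Finite.injective_iff_surjective.1 hi
      obtain ⟨B, hB⟩ := Matrix.vecMul_surjective_iff_exists_left_inverse.1 hs
      have h2 : IsUnit (A.map (Int.castRingHom (ZMod k))).det :=
        Matrix.isUnit_det_of_left_inverse hB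
      have h3 : (A.map (Int.castRingHom (ZMod k))).det = ((A.det : ℤ) : ZMod k) := by
        have := RingHom.map_det (Int.castRingHom (ZMod k)) A
        rw [← RingHom.mapMatrix_apply, ← this]
        rfl
      rw [h3, ZMod.coe_int_isUnit_iff_isCoprime] at h2
      exact (h2.pow_left (m := n)).isUnit_of_dvd' hdvd dvd_rfl
    have hUB : U = (k : ℤ) • A⁻¹ := by
      have h1 : A⁻¹ * (A * U) = U := by
        rw [← mul_assoc, Matrix.nonsing_inv_mul _ hdetu, one_mul]
      rw [← h1, hAU, Matrix.mul_smul, mul_one]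
    have hUB' : ∀ c j, ((z (Fin.succ j) c - z 0 c : ℤ) : ℝ) = k * ((A⁻¹ c j : ℤ) : ℝ) := by
      intro c j
      have h1 := congrFun (congrFun hUB c) j
      rw [hU] at h1
      simp only [Matrix.of_apply, Matrix.smul_apply, smul_eq_mul] at h1
      rw [h1]
      push_cast
      ring
    refine ⟨A⁻¹, z 0, Matrix.isUnit_nonsing_inv_det A hdetu, Set.Subset.antisymm ?_ ?_⟩
    · intro x hx
      refine ⟨fun j => lin (a j.succ) x - b j.succ, hdP x hx, ?_⟩
      funext c
      have h1 := coord hz hk hd x c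
      have h2 : ∑ j : Fin n, ((z j.succ c - z 0 c : ℤ) : ℝ) * (lin (a j.succ) x - b j.succ) =
          k * ∑ j : Fin n, ((A⁻¹ c j : ℤ) : ℝ) * (lin (a j.succ) x - b j.succ) := by
        rw [Finset.mul_sum]
        refine Finset.sum_congr rfl fun j _ => ?_
        rw [hUB']
        ring
      rw [h2] at h1
      have h3 := mul_left_cancel₀ hk0.ne' h1
      dsimp only
      rw [← h3, hz]
      ring
    · rintro _ ⟨y, ⟨hy0, hy1⟩, rfl⟩
      have hPc : Convex ℝ P := by rw [hP]; exact convex_convexHull ℝ _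
      let wt : Fin (n + 1) → ℝ := Fin.cons (1 - ∑ j, y j / k) (fun j => y j / k)
      have hmem := hPc.sum_mem (t := Finset.univ) (w := wt) (z := v) ?_ ?_ ?_
      · convert hmem using 1
        funext c
        rw [Finset.sum_apply, Fin.sum_univ_succ]
        simp only [wt, Fin.cons_zero, Fin.cons_succ, Pi.smul_apply, smul_eq_mul]
        have h1 : ∀ j : Fin n, y j / k * v j.succ c =
            y j / k * v 0 c + ((A⁻¹ c j : ℤ) : ℝ) * y j := by
          intro j
          have h2 := hUB' c j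
          push_cast at h2
          rw [← hz, ← hz] at h2
          have h3 : v j.succ c = v 0 c + k * ((A⁻¹ c j : ℤ) : ℝ) := by linarith
          rw [h3]
          field_simp
        rw [Finset.sum_congr rfl fun j _ => h1 j, Finset.sum_add_distrib, ← Finset.sum_mul, hz]
        ring
      · intro i _
        refine Fin.cases ?_ (fun j => ?_) i
        · simp only [wt, Fin.cons_zero]
          rw [← Finset.sum_div, sub_nonneg, div_le_one hk0]
          exact hy1
        · simp only [wt, Fin.cons_succ]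
          exact div_nonneg (hy0 j) hk0.le
      · rw [Fin.sum_univ_succ]
        simp only [wt, Fin.cons_zero, Fin.cons_succ]
        ring
      · intro i _
        rw [hP]
        exact subset_convexHull ℝ _ (hv i)
  · right
    push Not at hinj
    obtain ⟨m, hm, hm0⟩ := hinj
    have hdiv : ∀ c, (k : ℤ) ∣ ∑ j, ((m j).val : ℤ) * A j c := by
      intro c
      have h1 := congrFun hm c
      rw [Matrix.vecMul, dotProduct] at h1
      rw [← ZMod.intCast_zmod_eq_zero_iff_dvd]
      push_cast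
      have h2 : ∀ j, (((m j).val : ℕ) : ZMod k) = m j := fun j => ZMod.natCast_zmod_val _
      simp only [h2]
      simpa using h1
    choose l hl using hdiv
    have hval : ∀ x : Fin n → ℝ, (k : ℝ) * (lin l x - lin l (v 0)) =
        ∑ j : Fin n, ((m j).val : ℝ) * (lin (a j.succ) x - b j.succ) := by
      intro x
      have h1 : ∀ y : Fin n → ℝ, (k : ℝ) * lin l y =
          ∑ j : Fin n, ((m j).val : ℝ) * lin (a j.succ) y := by
        intro y
        simp only [lin, Finset.mul_sum]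
        rw [Finset.sum_comm]
        refine Finset.sum_congr rfl fun c _ => ?_
        have h2 : ((∑ j, ((m j).val : ℤ) * A j c : ℤ) : ℝ) = ((k * l c : ℤ) : ℝ) := by
          rw [hl c]
        push_cast at h2
        rw [← mul_assoc, ← h2, Finset.sum_mul]
        refine Finset.sum_congr rfl fun j _ => ?_
        rw [hA]
        simp only [Matrix.of_apply]
        ring
      rw [mul_sub, h1, h1, ← Finset.sum_sub_distrib]
      refine Finset.sum_congr rfl fun j _ => ?_
      rw [hb0]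
      ring
    have hmj : ∃ j, m j ≠ 0 := by
      by_contra hc
      push Not at hc
      exact hm0 (funext hc)
    obtain ⟨j, hj⟩ := hmj
    have hl0 : l ≠ 0 := by
      intro h0
      have h1 := hval (v j.succ)
      have h2 : ∀ y : Fin n → ℝ, lin l y = 0 := by
        intro y
        rw [h0, lin]
        simp
      rw [h2, h2, sub_zero, mul_zero] at h1
      have h3 : ∀ i : Fin n, ((m i).val : ℝ) * (lin (a i.succ) (v j.succ) - b i.succ) =
          if i = j then ((m i).val : ℝ) * k else 0 := by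
        intro i
        rw [hd]
        by_cases hij : i = j
        · subst hij; simp
        · rw [if_neg (fun h => hij (Fin.succ_injective _ h)), if_neg hij, mul_zero]
      rw [Finset.sum_congr rfl fun i _ => h3 i, Finset.sum_ite_eq' Finset.univ j,
        if_pos (Finset.mem_univ _)] at h1
      have h4 : ((m j).val : ℝ) = 0 := by
        rcases mul_eq_zero.1 h1.symm with h | h
        · exact h
        · exact absurd h hk0.ne'
      have h5 : (m j).val = 0 := by exact_mod_cast h4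
      exact hj ((ZMod.val_eq_zero _).1 h5)
    obtain ⟨K, hK, v1, hv1, v2, hv2, h12, -⟩ := length_of hVfin ⟨_, hv 0⟩ hVint hP l hl0
    refine ⟨K, ?_, hK⟩
    have hbd : ∀ x ∈ P, 0 ≤ lin l x - lin l (v 0) ∧ lin l x - lin l (v 0) ≤ (k : ℝ) - 1 := by
      intro x hx
      obtain ⟨h1, h2⟩ := hdP x hx
      have h3 := hval x
      have h4 : 0 ≤ ∑ j : Fin n, ((m j).val : ℝ) * (lin (a j.succ) x - b j.succ) :=
        Finset.sum_nonneg fun j _ => mul_nonneg (Nat.cast_nonneg _) (h1 j)
      have h5 : ∑ j : Fin n, ((m j).val : ℝ) * (lin (a j.succ) x - b j.succ) ≤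
          ((k : ℝ) - 1) * ∑ j : Fin n, (lin (a j.succ) x - b j.succ) := by
        rw [Finset.mul_sum]
        refine Finset.sum_le_sum fun j _ => mul_le_mul_of_nonneg_right ?_ (h1 j)
        have h6 : (m j).val + 1 ≤ k := ZMod.val_lt (m j)
        have h7 : ((m j).val : ℝ) + 1 ≤ k := by exact_mod_cast h6
        linarith
      have hk1 : (0 : ℝ) ≤ (k : ℝ) - 1 := by
        have : (1 : ℝ) ≤ k := by exact_mod_cast hk
        linarith
      have h8 : ((k : ℝ) - 1) * ∑ j : Fin n, (lin (a j.succ) x - b j.succ) ≤ ((k : ℝ) - 1) * k :=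
        mul_le_mul_of_nonneg_left h2 hk1
      constructor
      · by_contra hc
        push Not at hc
        nlinarith
      · by_contra hc
        push Not at hc
        nlinarith
    have hVP : ∀ v ∈ V, v ∈ P := fun v hv => by rw [hP]; exact subset_convexHull ℝ _ hv
    have h1 := hbd v1 (hVP v1 hv1)
    have h2 := hbd v2 (hVP v2 hv2)
    have h3 : (K : ℝ) ≤ (k : ℝ) - 1 := by
      rw [← h12]
      linarith
    have h4 : (K : ℝ) < k := by linarith
    exact_mod_cast h4

end Pool.Agent.Z26.FC.Y40.WC
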